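import Pool.Agent.Run7.h768.CS.AcZ

set_option autoImplicit false

/-! # The local motivic monodromy conjecture, angular component one: quadratic polynomials plus cubes

Let `k` be a subfield of `ℂ`. Every polynomial `f ∈ k[x_1, ..., x_n]` with `f(0) = 0` is stably equivalent to a
polynomial `F` of the form `q + ∑_{i ∈ T} z_i ^ 3`, where `q` is a polynomial of degree at most two and `T` is a
set of variables: for some `κ` there is a polynomial automorphism over `k` in `n + 2 κ` variables which fixes the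
origin and maps `f(x) + t_1 w_1 + ... + t_κ w_κ` to `F` (`StabEq`, `QC`). The refined conjecture for `F` and
`F + t w` (again of this form) implies the one for `f`. Here the refined conjecture says that
`(1 - 𝕃⁻¹ T) Z_{f,0}(T)` is in the ring generated by `T` and the `1 / (1 - 𝕃 ^ a T ^ b)` with `a / b` a root of the
reduced Bernstein-Sato polynomial `b_f(s) / (s + 1)`; it implies Q1 for `f`, since `b_f(-1) = 0`. (The roots are
negative, by a theorem of Kashiwara, so that `a < 0`.)

The zeta function is the one of Q1: the jets with `f(ψ) = t ^ N mod t ^ (N + 1)`. In contrast to the jets with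
`ord f(ψ) = N`, the zeta function of `f + t w` does not determine the one of `f` in an obvious way; but the ones of
`f + t w` and `f + t w + t' w'` together do, without division by `𝕃 - 1` (part 2).

Construction. The step is `f ↦ f + (t + v(x, w)) (w - u(x))`, `u(0) = v(0) = 0`, which is the image of
`f + t w` under `w ↦ w - u(x)`, `t ↦ t + v(x, w)`. With `v = c (w + u)` it replaces a term `c u ^ 2` of `f` by
`c w ^ 2 + t w - t u`, and with `v = w ^ 2 + w u + u ^ 2` a term `u ^ 3` by `w ^ 3 + t w - t u`. By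
`6 t u ^ 2 = (t + u) ^ 3 + (t - u) ^ 3 - 2 t ^ 3` the products `t u`, `u = ∑ c_j u_j ^ 2`, are treated in the same way. -/

namespace Pool.Agent.Results.MP_b91a16_ag.QuadraticPlusCubes

open MvPolynomial Pool.Agent.W428.MOT Pool.Agent.Run7.h768.CS
open Pool.Agent.Y229.MS (addyz)
open Pool.Agent.H628R4.TP (IsLocalBFunction)

/-- Q1 for `X = 𝔸 ^ n` and the origin: `Z_{f,0}(T)` is in the subring generated over `𝓜_k` by `T` and the
`1 / (1 - 𝕃 ^ a T ^ b)` for finitely many pairs `(a, b)`, `b > 0`, such that `a / b` is a root of every polynomial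
`b` with a local functional equation `b(s) f ^ s = P(s) f ^ (s + 1)` at the origin, in particular of the local
Bernstein-Sato polynomial. -/
def Strong {k : Type} [Field k] [Algebra k ℂ] {n : ℕ} (f : MvPolynomial (Fin n) k) : Prop :=
  ∃ S : Finset (ℤ × ℤ), (∀ p ∈ S, 0 < p.2 ∧ ∀ b : Polynomial ℂ,
    IsLocalBFunction (map (algebraMap k ℂ) f) b → b.eval ((p.1 : ℂ) / p.2) = 0) ∧
    zeta f 0 ∈ ratRing k (S : Set (ℤ × ℤ))

/-- `𝕃` -/
noncomputable def L (k : Type) [Field k] : MK k := ((Lu k : (MK k)ˣ) : MK k)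

/-- `𝕃⁻¹` -/
noncomputable def Linv (k : Type) [Field k] : MK k := (((Lu k)⁻¹ : (MK k)ˣ) : MK k)

/-- `D_f(T) = (1 - 𝕃⁻¹ T) Z_{f,0}(T)` -/
noncomputable def D {k : Type} [Field k] {n : ℕ} (f : MvPolynomial (Fin n) k) :
    PowerSeries (MK k) :=
  (1 - PowerSeries.C (Linv k) * PowerSeries.X) * zeta f 0

/-- `D_f(T) = 𝕃 ^ (-3) ((𝕃 ^ 2 + 𝕃) D_{f + t w}(𝕃 T) - D_{f + t w + t' w'}(𝕃 ^ 2 T))` -/
def TwoStep {k : Type} [Field k] {n : ℕ} (f : MvPolynomial (Fin n) k) : Prop :=
  D f = PowerSeries.C (Linv k ^ 3) * (PowerSeries.C (L k ^ 2 + L k) *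
    PowerSeries.rescale (L k) (D (addyz f)) -
      PowerSeries.rescale (L k ^ 2) (D (addyz (addyz f))))

/-- The refined conjecture: the same for `(1 - 𝕃⁻¹ T) Z_{f,0}(T)` and the roots of the reduced local
Bernstein-Sato polynomial `b(s) / (s + 1)`. -/
def Refined {k : Type} [Field k] [Algebra k ℂ] {n : ℕ} (f : MvPolynomial (Fin n) k) : Prop :=
  ∃ S : Finset (ℤ × ℤ), (∀ p ∈ S, 0 < p.2 ∧ ∀ c : Polynomial ℂ,
    IsLocalBFunction (map (algebraMap k ℂ) f) ((Polynomial.X + 1) * c) →
      c.eval ((p.1 : ℂ) / p.2) = 0) ∧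
    D f ∈ ratRing k (S : Set (ℤ × ℤ))

/-- `F` is a normal form of `f`: `F = q + ∑_{i ∈ T} z_i ^ 3` with `deg q ≤ 2` (`QC F`), of degree at least one and
with `F(0) = 0`, is the image of `f(x) + t_1 w_1 + ... + t_κ w_κ` under an automorphism over `k` which fixes the
origin (`StabEq f F κ`), and a local functional equation of `f` with `(s + 1) c(s)` gives one of `F` with
`(s + 1) c(s + κ)`. -/
structure NormalForm {k : Type} [Field k] [Algebra k ℂ] {n m : ℕ} (f : MvPolynomial (Fin n) k)
    (F : MvPolynomial (Fin m) k) (κ : ℕ) : Prop where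
  dim : m = n + 2 * κ
  cubes : QC F
  degree : F.totalDegree ≠ 0
  zero : constantCoeff F = 0
  stab : StabEq f F κ
  eqn : ∀ c : Polynomial ℂ,
    IsLocalBFunction (map (algebraMap k ℂ) f) ((Polynomial.X + 1) * c) →
      IsLocalBFunction (map (algebraMap k ℂ) F)
        ((Polynomial.X + 1) * c.comp (Polynomial.X + Polynomial.C (κ : ℂ)))

/-- **Quadratic polynomials plus cubes of variables suffice.** Let `k` be a subfield of `ℂ` (a field with an
embedding).

First part: every non-constant `f` over `k` with `f(0) = 0` has a normal form `F = q + ∑_{i ∈ T} z_i ^ 3`,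
`deg q ≤ 2` (`NormalForm`); then `F + t w` (`addyz F`) has this form, too, and the refined conjecture for `F` and
for `F + t w` implies the refined conjecture for `f`.

Second part: for every `f` with `f(0) = 0`, with `D_g(T) = (1 - 𝕃⁻¹ T) Z_{g,0}(T)`,
`D_f(T) = 𝕃 ^ (-3) ((𝕃 ^ 2 + 𝕃) D_{f + t w}(𝕃 T) - D_{f + t w + t' w'}(𝕃 ^ 2 T))`.

Third part: the refined conjecture for `f` implies Q1 for `f`.

Fourth part: the refined conjecture holds for all non-constant polynomials over `k` with `f(0) = 0`, in any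
number of variables, if and only if it holds for those of the form `q + ∑_{i ∈ T} z_i ^ 3`, `deg q ≤ 2`. -/
theorem result (k : Type) [Field k] [Algebra k ℂ] :
    (∀ {n : ℕ} (f : MvPolynomial (Fin n) k), f.totalDegree ≠ 0 → constantCoeff f = 0 →
      ∃ (κ m : ℕ) (F : MvPolynomial (Fin m) k), NormalForm f F κ ∧ QC (addyz F) ∧
        (Refined F → Refined (addyz F) → Refined f)) ∧
    (∀ {n : ℕ} (f : MvPolynomial (Fin n) k), constantCoeff f = 0 → TwoStep f) ∧
    (∀ {n : ℕ} (f : MvPolynomial (Fin n) k), f.totalDegree ≠ 0 → constantCoeff f = 0 →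
      Refined f → Strong f) ∧
    ((∀ (n : ℕ) (f : MvPolynomial (Fin n) k), f.totalDegree ≠ 0 → constantCoeff f = 0 →
        Refined f) ↔
      ∀ (n : ℕ) (f : MvPolynomial (Fin n) k), QC f → f.totalDegree ≠ 0 → constantCoeff f = 0 →
        Refined f) := by
  have hk : CharZero k := RingHom.charZero (algebraMap k ℂ)
  have hR : ∀ {n : ℕ} (f : MvPolynomial (Fin n) k), constantCoeff f = 0 →
      (Refined f ↔ LRef f) := by
    intro n f hf
    unfold Refined D
    rw [zeta_zero f hf]
    exact Iff.rfl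
  have ha : ∀ {n : ℕ} (F : MvPolynomial (Fin n) k), constantCoeff F = 0 →
      constantCoeff (addyz F) = 0 := by
    intro n F hF
    rw [addyz, map_add, map_mul, constantCoeff_X, zero_mul, add_zero, constantCoeff_rename]
    exact hF
  refine ⟨fun f hf hf0 => ?_, fun f hf0 => ?_, fun f hf hf0 h => ?_, fun h n f _ => h n f,
    fun h n f hf hf0 => ?_⟩
  · obtain ⟨κ, m, F, hm, hF, hs, he, hr⟩ := exists_qck f
    refine ⟨κ, m, F, ⟨hm, hF, hr.deg hf, hr.const hf0, hs,
      fun c hc => (hr.lb hf hf0 _ hc).2 c rfl⟩, hF.addyz, fun h1 h2 => ?_⟩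
    rw [hR _ (hr.const hf0)] at h1
    rw [hR _ (ha _ (hr.const hf0))] at h2
    rw [hR f hf0]
    exact lref_of hm hf hf0 he hr h1 h2
  · unfold TwoStep D
    rw [zeta_zero f hf0, zeta_zero _ (ha f hf0), zeta_zero _ (ha _ (ha f hf0))]
    have h1 := elimL f hf0 Pool.Agent.W375.MG.good_one
    rw [PowerSeries.rescale_rescale] at h1
    rw [map_add, map_pow PowerSeries.C (L k), sq, sq]
    exact h1
  · rw [hR f hf0] at h
    have h1 := lref_strong hf hf0 h
    unfold Strong
    rw [zeta_zero f hf0]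
    exact h1
  · obtain ⟨κ, m, F, hm, hF, hs, he, hr⟩ := exists_qck f
    have c0 := hr.const hf0
    rw [hR f hf0]
    exact lref_of hm hf hf0 he hr ((hR F c0).1 (h _ F hF (hr.deg hf) c0))
      ((hR _ (ha F c0)).1 (h _ _ hF.addyz (addyz_deg F) (ha F c0)))

end Pool.Agent.Results.MP_b91a16_ag.QuadraticPlusCubes
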